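import Pool.Agent.H.MP_baf2fc_al.Mag

set_option autoImplicit false

namespace Pool.Agent.H.MP_fb8dd6_al

open PowerSeries MonoidAlgebra

structure GCone {G : Type} [Group G] (P : Set G) : Prop where
  mul : ∀ a ∈ P, ∀ b ∈ P, a * b ∈ P
  one : (1 : G) ∉ P
  total : ∀ a : G, a ≠ 1 → a ∈ P ∨ a⁻¹ ∈ P
  conj : ∀ a ∈ P, ∀ g : G, g * a * g⁻¹ ∈ P

open Classical in
@[reducible] noncomputable def GCone.ord {G : Type} [Group G] {P : Set G} (h : GCone P) :
    LinearOrder G where
  le a b := a = b ∨ a⁻¹ * b ∈ P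
  le_refl _ := Or.inl rfl
  le_trans a b c := by
    rintro (rfl | h1) (rfl | h2)
    exacts [Or.inl rfl, Or.inr h2, Or.inr h1, Or.inr (by simpa [mul_assoc] using h.mul _ h1 _ h2)]
  le_antisymm a b := by
    rintro (rfl | h1) (h2 | h2)
    exacts [rfl, rfl, h2.symm, absurd (by simpa [mul_assoc] using h.mul _ h1 _ h2) h.one]
  le_total a b := by
    by_cases e : a = b
    · exact Or.inl (Or.inl e)
    · rcases h.total (a⁻¹ * b) (fun h' => e (inv_mul_eq_one.1 h')) with h1 | h1
      · exact Or.inl (Or.inr h1)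
      · exact Or.inr (Or.inr (by simpa using h1))
  toDecidableLE := fun _ _ => inferInstance

theorem GCone.inv {G : Type} [Group G] {P : Set G} (h : GCone P) (a b x y : G)
    (hab : h.ord.le a b) : h.ord.le (x * a * y) (x * b * y) := by
  rcases hab with rfl | h1
  · exact Or.inl rfl
  · exact Or.inr (by simpa [mul_assoc] using h.conj _ h1 y⁻¹)

/-- leading coefficient positivity -/
def Pos {α : Type} [LinearOrder α] (f : α → ℚ) : Prop := ∃ a, 0 < f a ∧ ∀ b < a, f b = 0

theorem Pos.add {α : Type} [LinearOrder α] {f g : α → ℚ} (hf : Pos f) (hg : Pos g) :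
    Pos (f + g) := by
  obtain ⟨a, h1, h2⟩ := hf
  obtain ⟨b, h3, h4⟩ := hg
  rcases lt_trichotomy a b with h | rfl | h
  · exact ⟨a, by simpa [h4 a h] using h1, fun c hc => by simp [h2 c hc, h4 c (hc.trans h)]⟩
  · exact ⟨a, add_pos h1 h3, fun c hc => by simp [h2 c hc, h4 c hc]⟩
  · exact ⟨b, by simpa [h2 b h] using h3, fun c hc => by simp [h4 c hc, h2 c (hc.trans h)]⟩

theorem Pos.ne {α : Type} [LinearOrder α] {f : α → ℚ} (hf : Pos f) : f ≠ 0 := by
  rintro rfl
  obtain ⟨a, h1, -⟩ := hf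
  exact lt_irrefl _ h1

theorem Pos.total {α : Type} [LinearOrder α] {f : α → ℚ} (hw : (Function.support f).IsWF)
    (hf : f ≠ 0) : Pos f ∨ Pos (-f) := by
  have hn : (Function.support f).Nonempty := Function.support_nonempty_iff.2 hf
  have h1 : f (hw.min hn) ≠ 0 := hw.min_mem hn
  have h2 : ∀ b < hw.min hn, f b = 0 := fun b hb => by
    by_contra h; exact hw.not_lt_min hn h hb
  rcases lt_or_gt_of_ne h1 with h | h
  · exact Or.inr ⟨_, by simpa using h, fun b hb => by simp [h2 b hb]⟩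
  · exact Or.inl ⟨_, h, h2⟩

theorem ps_cone {G A : Type} [Group G] [Ring A] (Q : A → Prop) (q1 : ∀ a b, Q a → Q b → Q (a + b))
    (q2 : ¬ Q 0) (q3 : ∀ a, a ≠ 0 → Q a ∨ Q (-a)) (ν : G →* (PowerSeries A)ˣ)
    (inj : ∀ g, (ν g : PowerSeries A) - 1 = 0 → g = 1)
    (c1 : ∀ g, constantCoeff (ν g : PowerSeries A) = 1) : ∃ P : Set G, GCone P := by
  classical
  have cm : ∀ (u : PowerSeries A) (d : ℕ), u * X ^ d = X ^ d * u :=
    fun u d => ((commute_X u).pow_right d).eq
  refine ⟨{g | ∃ (d : ℕ) (s : PowerSeries A), (ν g : PowerSeries A) - 1 = X ^ d * s ∧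
    Q (constantCoeff s)}, ?_, ?_, ?_, ?_⟩
  · rintro a ⟨d, s, h1, h2⟩ b ⟨e, t, h3, h4⟩
    have e0 : (ν (a * b) : PowerSeries A) - 1 = (ν a - 1) + (ν b - 1) + (ν a - 1) * (ν b - 1) := by
      rw [map_mul, Units.val_mul]; noncomm_ring
    rcases lt_trichotomy d e with h | rfl | h
    · obtain ⟨m, rfl⟩ := Nat.exists_eq_add_of_lt h
      refine ⟨d, s + X ^ (m + 1) * t + s * ((ν b : PowerSeries A) - 1), ?_, by simpa [c1] using h2⟩
      rw [mul_add, mul_add, ← mul_assoc, ← pow_add, ← add_assoc, ← h3, ← mul_assoc, ← h1, e0]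
    · refine ⟨d, s + t + s * ((ν b : PowerSeries A) - 1), ?_, by simpa [c1] using q1 _ _ h2 h4⟩
      rw [mul_add, mul_add, ← h3, ← mul_assoc, ← h1, e0]
    · obtain ⟨m, rfl⟩ := Nat.exists_eq_add_of_lt h
      refine ⟨e, X ^ (m + 1) * s + t + ((ν a : PowerSeries A) - 1) * t, ?_, by simpa [c1] using h4⟩
      rw [mul_add, mul_add, ← mul_assoc, ← pow_add, ← add_assoc, ← h1, ← mul_assoc (X ^ e),
        ← cm ((ν a : PowerSeries A) - 1), mul_assoc, ← h3, e0]
  · rintro ⟨d, s, h1, h2⟩
    have h3 : s = 0 := by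
      ext1 n
      have := congrArg (PowerSeries.coeff (n + d)) h1
      rw [coeff_X_pow_mul] at this
      simpa using this.symm
    exact q2 (by simpa [h3] using h2)
  · intro a ha
    have h0 : (ν a : PowerSeries A) - 1 ≠ 0 := fun h => ha (inj a h)
    have hex : ∃ n, PowerSeries.coeff n ((ν a : PowerSeries A) - 1) ≠ 0 := by
      by_contra h
      push Not at h
      exact h0 (by ext1 n; rw [h n, map_zero])
    obtain ⟨d, hd1, hd2⟩ : ∃ d, PowerSeries.coeff d ((ν a : PowerSeries A) - 1) ≠ 0 ∧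
        ∀ m < d, PowerSeries.coeff m ((ν a : PowerSeries A) - 1) = 0 :=
      ⟨Nat.find hex, Nat.find_spec hex, fun m hm => not_not.1 (Nat.find_min hex hm)⟩
    obtain ⟨s, hs⟩ : (X : PowerSeries A) ^ d ∣ (ν a : PowerSeries A) - 1 := X_pow_dvd_iff.2 hd2
    have h1 : constantCoeff s ≠ 0 := by
      have := coeff_X_pow_mul s d 0
      rw [zero_add, ← hs, coeff_zero_eq_constantCoeff_apply] at this
      rwa [← this]
    rcases q3 _ h1 with h | h
    · exact Or.inl ⟨_, s, hs, h⟩
    · refine Or.inr ⟨d, -s * ν a⁻¹, ?_, by rwa [map_mul, c1, mul_one, map_neg]⟩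
      rw [neg_mul, mul_neg, ← mul_assoc, ← hs, sub_mul, ← Units.val_mul, ← map_mul, mul_inv_cancel,
        map_one, Units.val_one, one_mul, neg_sub]
  · rintro a ⟨d, s, h1, h2⟩ g
    refine ⟨d, ν g * s * ν g⁻¹, ?_, by rwa [map_mul, map_mul, c1, c1, mul_one, one_mul]⟩
    rw [← mul_assoc, ← mul_assoc, ← cm (ν g : PowerSeries A), mul_assoc (ν g : PowerSeries A),
      ← h1, mul_sub, sub_mul, mul_one, ← Units.val_mul, ← Units.val_mul, ← Units.val_mul,
      ← map_mul, ← map_mul, ← map_mul, mul_inv_cancel, map_one, Units.val_one]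

open Pool.Agent.H.MP_baf2fc_al in
theorem free_cone (β : Type) : ∃ P : Set (FreeGroup β), GCone P := by
  classical
  let _ : LinearOrder (W β) := linearOrderOfSTO WellOrderingRel
  refine ps_cone (A := MonoidAlgebra ℚ (W β)) (fun a => Pos a.coeff) (fun a b ha hb => ?_)
    (fun h => h.ne rfl) (fun a ha => ?_) ((μ0 ℚ β).comp (FreeGroup.map some)) ?_ ?_
  · exact ha.add hb
  · refine (Pos.total (f := a.coeff) (Set.Finite.isWF (Finsupp.hasFiniteSupport _)) fun h => ha ?_).imp
      id fun h => ?_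
    · ext w; exact congrFun h w
    · have : ((-a).coeff : W β → ℚ) = -a.coeff := by funext w; simp
      rwa [this]
  · intro g hg
    have h1 := μ_inj (single (FreeGroup.map some g) (1 : ℚ) - single 1 1) (by
      rw [map_sub, μ_single, μ_single, one_smul, one_smul, map_one]; exact hg)
    have h2 := MonoidAlgebra.single_left_injective (one_ne_zero (α := ℚ)) (sub_eq_zero.1 h1)
    exact FreeGroup.map_injective (Option.some_injective β) (by rw [h2, map_one])
  · intro g
    induction g using FreeGroup.induction_on with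
    | C1 => rw [map_one, Units.val_one, map_one]
    | of x =>
      rw [MonoidHom.comp_apply, FreeGroup.map.of, μ0, FreeGroup.lift_apply_of]
      change constantCoeff (1 + X * C _) = _
      rw [map_add, map_mul, constantCoeff_X, zero_mul, add_zero, map_one]
    | inv_of x h =>
      have := congrArg (fun u : (PS ℚ β)ˣ => constantCoeff (u : PS ℚ β))
        (mul_inv_cancel (((μ0 ℚ β).comp (FreeGroup.map some)) (FreeGroup.of x)))
      simp only [Units.val_mul, map_mul, h, one_mul, Units.val_one, map_one] at this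
      rwa [map_inv]
    | mul a b ha hb => rw [map_mul, Units.val_mul, map_mul, ha, hb, one_mul]

end Pool.Agent.H.MP_fb8dd6_al
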