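import Mathlib

set_option autoImplicit false

namespace Pool.Agent.H.MP_fb8dd6_al

open MonoidAlgebra

abbrev RR (X : Type) := MonoidAlgebra ℚ (FreeGroup X)

variable {X : Type}

noncomputable def o (g : FreeGroup X) : RR X := single g 1

theorem o_mul (g h : FreeGroup X) : o (g * h) = o g * o h := by simp [o, single_mul_single]
theorem o_one : o (1 : FreeGroup X) = 1 := rfl
theorem o_inv (g : FreeGroup X) : o g⁻¹ * o g = 1 := by rw [← o_mul, inv_mul_cancel, o_one]
theorem o_inv' (g : FreeGroup X) : o g * o g⁻¹ = 1 := by rw [← o_mul, mul_inv_cancel, o_one]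

theorem inter {V N : Type} [AddCommGroup V] [Module ℚ V] [AddCommGroup N] [Module ℚ N]
    (α : RR X →ₐ[ℚ] Module.End ℚ V) (β : RR X →ₐ[ℚ] Module.End ℚ N) (f : V →ₗ[ℚ] N)
    (h : ∀ x v, f (α (o (FreeGroup.of x)) v) = β (o (FreeGroup.of x)) (f v)) (r : RR X) (v : V) :
    f (α r v) = β r (f v) := by
  have hg : ∀ g v, f (α (o g) v) = β (o g) (f v) := by
    intro g
    induction g using FreeGroup.induction_on with
    | C1 => intro v; simp [o_one]
    | of x => exact h x
    | inv_of x ih =>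
      intro v
      have := congrArg (β (o (FreeGroup.of x)⁻¹)) (ih (α (o (FreeGroup.of x)⁻¹) v))
      rw [← Module.End.mul_apply, ← Module.End.mul_apply (β _), ← map_mul, ← map_mul, o_inv, o_inv',
        map_one, map_one, Module.End.one_apply, Module.End.one_apply] at this
      exact this.symm
    | mul a b ha hb =>
      intro v
      rw [o_mul, map_mul, map_mul, Module.End.mul_apply, Module.End.mul_apply, ha, hb]
  induction r using MonoidAlgebra.induction_on with
  | of g => exact hg g v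
  | add a b ha hb => simp [ha, hb]
  | smul c a ha => simp [ha]

theorem tri {M W : Type} [AddCommGroup M] [Module ℚ M] [AddCommGroup W] [Module ℚ W]
    [Module (RR X) W] [IsScalarTower ℚ (RR X) W] (u : X → M ≃ₗ[ℚ] M) (δ : X → M →ₗ[ℚ] W) :
    ∃ α : RR X →ₐ[ℚ] Module.End ℚ (M × W),
      (∀ x m w, α (o (FreeGroup.of x)) (m, w) = (u x m, o (FreeGroup.of x) • w + δ x m)) ∧
      ∀ r w, α r (0, w) = (0, r • w) := by
  let l : RR X →ₐ[ℚ] Module.End ℚ W := Algebra.lsmul ℚ ℚ W
  let T : X → (Module.End ℚ (M × W))ˣ := fun x =>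
    { val := ((u x).toLinearMap ∘ₗ LinearMap.fst ℚ M W).prod
        (l (o (FreeGroup.of x)) ∘ₗ LinearMap.snd ℚ M W + δ x ∘ₗ LinearMap.fst ℚ M W)
      inv := ((u x).symm.toLinearMap ∘ₗ LinearMap.fst ℚ M W).prod
        (l (o (FreeGroup.of x)⁻¹) ∘ₗ (LinearMap.snd ℚ M W -
          δ x ∘ₗ (u x).symm.toLinearMap ∘ₗ LinearMap.fst ℚ M W))
      val_inv := by
        refine LinearMap.ext fun v => ?_
        simp [l, smul_smul, o_inv']
      inv_val := by
        refine LinearMap.ext fun v => ?_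
        simp [l, smul_smul, o_inv] }
  let α : RR X →ₐ[ℚ] Module.End ℚ (M × W) :=
    MonoidAlgebra.lift ℚ _ _ ((Units.coeHom _).comp (FreeGroup.lift T))
  have h1 : ∀ x m w, α (o (FreeGroup.of x)) (m, w) =
      (u x m, o (FreeGroup.of x) • w + δ x m) := by
    intro x m w
    simp [α, o, T, l]
  refine ⟨α, h1, fun r w => ?_⟩
  exact (inter l α (LinearMap.inr ℚ M W) (fun x v => by simp [h1, l]) r w).symm

inductive Conn {ι : Type} (S : Set (ι × FreeGroup X)) : ι × FreeGroup X → Prop
  | root (i : ι) : (i, 1) ∈ S → Conn S (i, 1)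
  | up (i : ι) (g : FreeGroup X) (x : X) : Conn S (i, g) → (i, FreeGroup.of x * g) ∈ S →
      Conn S (i, FreeGroup.of x * g)
  | down (i : ι) (g : FreeGroup X) (x : X) : Conn S (i, FreeGroup.of x * g) → (i, g) ∈ S →
      Conn S (i, g)

theorem Conn.mono {ι : Type} {S T : Set (ι × FreeGroup X)} (h : S ⊆ T) {s : ι × FreeGroup X}
    (hs : Conn S s) : Conn T s := by
  induction hs with
  | root i hi => exact Conn.root i (h hi)
  | up i g x _ hi ih => exact Conn.up i g x ih (h hi)
  | down i g x _ hi ih => exact Conn.down i g x ih (h hi)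

theorem Conn.mem {ι : Type} {S : Set (ι × FreeGroup X)} {s : ι × FreeGroup X}
    (hs : Conn S s) : s ∈ S := by
  cases hs <;> assumption

theorem schreier {ι M : Type} [Fintype ι] [AddCommGroup M] [Module ℚ M] [Module (RR X) M]
    [IsScalarTower ℚ (RR X) M] (e : ι → M) (he : ∀ m : M, ∃ c : ι → RR X, m = ∑ i, c i • e i) :
    ∃ S : Set (ι × FreeGroup X), LinearIndepOn ℚ (fun s : ι × FreeGroup X => o s.2 • e s.1) S ∧
      (∀ s ∈ S, Conn S s) ∧
      ⊤ ≤ Submodule.span ℚ ((fun s : ι × FreeGroup X => o s.2 • e s.1) '' S) := by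
  set v := fun s : ι × FreeGroup X => o s.2 • e s.1 with hv
  obtain ⟨S, hS⟩ := zorn_subset {S : Set (ι × FreeGroup X) | LinearIndepOn ℚ v S ∧
      ∀ s ∈ S, Conn S s} (fun c hc hch => ⟨⋃₀ c, ⟨linearIndepOn_sUnion_of_directed
        hch.directedOn fun a ha => (hc ha).1, fun s ⟨t, ht, hs⟩ =>
          ((hc ht).2 s hs).mono (Set.subset_sUnion_of_mem ht)⟩,
        fun s hs => Set.subset_sUnion_of_mem hs⟩)
  refine ⟨S, hS.prop.1, hS.prop.2, ?_⟩
  have key : ∀ s, Conn (insert s S) s → v s ∈ Submodule.span ℚ (v '' S) := by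
    intro s hs
    by_contra h
    have h1 : insert s S ⊆ S := hS.le_of_ge (y := insert s S) ⟨hS.prop.1.insert h, by
      rintro t (rfl | ht)
      exacts [hs, (hS.prop.2 t ht).mono (Set.subset_insert _ _)]⟩ (Set.subset_insert _ _)
    exact h (Submodule.subset_span ⟨s, h1 (Set.mem_insert _ _), rfl⟩)
  have hg : ∀ g : FreeGroup X, ∀ m ∈ Submodule.span ℚ (v '' S),
      o g • m ∈ Submodule.span ℚ (v '' S) := by
    have aux : ∀ g : FreeGroup X, (∀ s ∈ S, v (s.1, g * s.2) ∈ Submodule.span ℚ (v '' S)) →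
        ∀ m ∈ Submodule.span ℚ (v '' S), o g • m ∈ Submodule.span ℚ (v '' S) := by
      intro g h m hm
      induction hm using Submodule.span_induction with
      | mem _ hm =>
        obtain ⟨s, hs, rfl⟩ := hm
        simpa only [hv, o_mul, mul_smul] using h s hs
      | zero => simp
      | add a b _ _ ha hb => rw [smul_add]; exact add_mem ha hb
      | smul c a _ ha => rw [smul_comm]; exact Submodule.smul_mem _ _ ha
    intro g
    induction g using FreeGroup.induction_on with
    | C1 => intro m hm; rwa [o_one, one_smul]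
    | of x =>
      exact aux _ fun s hs => key _ (Conn.up _ _ _
        ((hS.prop.2 s hs).mono (Set.subset_insert _ _)) (Set.mem_insert _ _))
    | inv_of x _ =>
      refine aux _ fun s hs => key _ (Conn.down _ _ x ?_ (Set.mem_insert _ _))
      rw [mul_inv_cancel_left]
      exact (hS.prop.2 s hs).mono (Set.subset_insert _ _)
    | mul a b ha hb => intro m hm; rw [o_mul, mul_smul]; exact ha _ (hb m hm)
  intro m _
  obtain ⟨c, rfl⟩ := he m
  refine Submodule.sum_mem _ fun i _ => ?_
  have h0 : e i ∈ Submodule.span ℚ (v '' S) := by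
    simpa only [hv, o_one, one_smul] using key (i, 1) (Conn.root i (Set.mem_insert _ _))
  induction c i using MonoidAlgebra.induction_on with
  | of g => exact hg g _ h0
  | add a b ha hb => rw [add_smul]; exact add_mem ha hb
  | smul q a ha => rw [smul_assoc]; exact Submodule.smul_mem _ _ ha

/-- submodules of free modules over the group algebra of a free group are free -/
theorem lewin {ι : Type} [Fintype ι] (U : Submodule (RR X) (ι → RR X)) :
    ∃ (E : Type) (θ : (E →₀ RR X) →ₗ[RR X] (ι → RR X)),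
      Function.Injective θ ∧ LinearMap.range θ = U := by
  classical
  let b : ι → ι → RR X := fun i => Pi.single i 1
  have hb : ∀ a : ι → RR X, a = ∑ i, a i • b i := fun a => by
    ext1 j; simp [b, Finset.sum_apply, Pi.single_apply]
  obtain ⟨S, h1, h2, h3⟩ := schreier (X := X) (fun i => U.mkQ (b i)) (by
    intro m
    obtain ⟨a, rfl⟩ := U.mkQ_surjective m
    exact ⟨a, by conv_lhs => rw [hb a, map_sum]
                 simp only [map_smul]⟩)
  let B := Module.Basis.mk (v := fun s : S => o s.1.2 • U.mkQ (b s.1.1)) h1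
    (by rwa [← Set.image_eq_range (fun s : ι × FreeGroup X => o s.2 • U.mkQ (b s.1))])
  have hB : ∀ s : S, B s = o s.1.2 • U.mkQ (b s.1.1) := fun s => Module.Basis.mk_apply _ _ s
  let σ : ((ι → RR X) ⧸ U) →ₗ[ℚ] (ι → RR X) := B.constr ℚ fun s => o s.1.2 • b s.1.1
  have σB : ∀ s : S, σ (B s) = o s.1.2 • b s.1.1 := fun s => B.constr_basis ℚ _ s
  have πσ : ∀ m, U.mkQ (σ m) = m := by
    have : (U.mkQ.restrictScalars ℚ) ∘ₗ σ = LinearMap.id := B.ext fun s => by
      change U.mkQ (σ (B s)) = B s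
      rw [σB, map_smul, hB]
    exact fun m => LinearMap.congr_fun this m
  let E := {p : S × X // (p.1.1.1, FreeGroup.of p.2 * p.1.1.2) ∉ S} ⊕ {i : ι // (i, 1) ∉ S}
  let y : E → (ι → RR X) := Sum.elim
    (fun p => o (FreeGroup.of p.1.2) • σ (B p.1.1) - σ (o (FreeGroup.of p.1.2) • B p.1.1))
    (fun i => b i.1 - σ (U.mkQ (b i.1)))
  let θ : (E →₀ RR X) →ₗ[RR X] (ι → RR X) := Finsupp.linearCombination (RR X) y
  let δ : X → ((ι → RR X) ⧸ U) →ₗ[ℚ] (E →₀ RR X) := fun x => B.constr ℚ fun s =>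
    if h : (s.1.1, FreeGroup.of x * s.1.2) ∉ S then Finsupp.single (Sum.inl ⟨(s, x), h⟩) 1 else 0
  have δB : ∀ x (s : S), δ x (B s) = if h : (s.1.1, FreeGroup.of x * s.1.2) ∉ S then
      Finsupp.single (Sum.inl ⟨(s, x), h⟩) 1 else 0 := fun x s => B.constr_basis ℚ _ s
  let lM : RR X →ₐ[ℚ] Module.End ℚ ((ι → RR X) ⧸ U) := Algebra.lsmul ℚ ℚ _
  let lA : RR X →ₐ[ℚ] Module.End ℚ (ι → RR X) := Algebra.lsmul ℚ ℚ _
  have K1 : ∀ x m, θ (δ x m) = o (FreeGroup.of x) • σ m - σ (o (FreeGroup.of x) • m) := by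
    intro x
    have : (θ.restrictScalars ℚ) ∘ₗ δ x =
        lA (o (FreeGroup.of x)) ∘ₗ σ - σ ∘ₗ lM (o (FreeGroup.of x)) := B.ext fun s => by
      change θ (δ x (B s)) = o (FreeGroup.of x) • σ (B s) - σ (o (FreeGroup.of x) • B s)
      rw [δB]
      split_ifs with h
      · rw [map_zero, hB, smul_smul, ← o_mul, ← hB, ← hB ⟨_, h⟩, σB, σB, smul_smul, ← o_mul,
          sub_self]
      · simp only [θ, Finsupp.linearCombination_single, one_smul, y, Sum.elim_inl]
    exact fun m => LinearMap.congr_fun this m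
  let u : X → ((ι → RR X) ⧸ U) ≃ₗ[ℚ] ((ι → RR X) ⧸ U) := fun x =>
    LinearEquiv.ofLinearMap (lM (o (FreeGroup.of x))) (lM (o (FreeGroup.of x)⁻¹))
      (by rw [← Module.End.mul_eq_comp, ← map_mul, o_inv', map_one]; rfl)
      (by rw [← Module.End.mul_eq_comp, ← map_mul, o_inv, map_one]; rfl)
  obtain ⟨α, a1, a2⟩ := tri u δ
  replace a1 : ∀ x m w, α (o (FreeGroup.of x)) (m, w) =
      (o (FreeGroup.of x) • m, o (FreeGroup.of x) • w + δ x m) := a1
  let val := σ.coprod (θ.restrictScalars ℚ)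
  have v1 : ∀ r v, val (α r v) = r • val v := inter α lA val fun x v => by
    obtain ⟨m, w⟩ := v
    rw [a1]
    change σ (o (FreeGroup.of x) • m) + θ (o (FreeGroup.of x) • w + δ x m) =
      o (FreeGroup.of x) • (σ m + θ w)
    rw [map_add, K1, map_smul θ, smul_add]
    abel
  have v2 : ∀ r v, (α r v).1 = r • v.1 := inter α lM (LinearMap.fst ℚ _ _) fun x v => by
    obtain ⟨m, w⟩ := v
    rw [a1]; rfl
  let v0 : ι → ((ι → RR X) ⧸ U) × (E →₀ RR X) := fun i =>
    (U.mkQ (b i), if h : (i, 1) ∉ S then Finsupp.single (Sum.inr ⟨i, h⟩) 1 else 0)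
  let Φ : (ι → RR X) →ₗ[ℚ] ((ι → RR X) ⧸ U) × (E →₀ RR X) :=
    { toFun := fun a => ∑ i, α (a i) (v0 i)
      map_add' := fun a c => by simp [Finset.sum_add_distrib]
      map_smul' := fun q a => by simp [Finset.smul_sum] }
  have hΦ : ∀ a, Φ a = ∑ i, α (a i) (v0 i) := fun _ => rfl
  have Φ1 : ∀ (r : RR X) a, Φ (r • a) = α r (Φ a) := fun r a => by
    simp [hΦ, map_sum]
  have Φ2 : ∀ i, Φ (b i) = v0 i := fun i => by
    rw [hΦ, Finset.sum_eq_single i (fun j _ hj => by simp [b, hj]) (by simp)]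
    simp [b]
  have Φ3 : ∀ s, Conn S s → Φ (o s.2 • b s.1) = (o s.2 • U.mkQ (b s.1), 0) := by
    intro s hs
    induction hs with
    | root i hi => simp only [o_one, one_smul, Φ2, v0, hi, not_true, dif_neg, not_false_iff]
    | up i g x hc hi ih =>
      rw [o_mul, mul_smul, Φ1, ih, a1, ← hB ⟨_, hc.mem⟩, δB, dif_neg (not_not.2 hi), smul_zero,
        add_zero, mul_smul, ← hB ⟨_, hc.mem⟩]
    | down i g x hc hi ih =>
      have h4 : α (o (FreeGroup.of x)) (Φ (o g • b i)) =
          α (o (FreeGroup.of x)) (o g • U.mkQ (b i), 0) := by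
        rw [← Φ1, smul_smul, ← o_mul, ih, a1, ← hB ⟨_, hi⟩, δB, dif_neg (not_not.2 hc.mem),
          smul_zero, add_zero, o_mul, mul_smul, ← hB ⟨_, hi⟩]
      have := congrArg (α (o (FreeGroup.of x)⁻¹)) h4
      rwa [← Module.End.mul_apply, ← Module.End.mul_apply, ← map_mul, o_inv, map_one,
        Module.End.one_apply, Module.End.one_apply] at this
  have Φ4 : ∀ m, Φ (σ m) = (m, 0) := by
    have : Φ ∘ₗ σ = LinearMap.inl ℚ _ _ := B.ext fun s => by
      rw [LinearMap.comp_apply, σB, Φ3 _ (h2 _ s.2), LinearMap.inl_apply, hB]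
    exact fun m => LinearMap.congr_fun this m
  have Φ5 : ∀ w, Φ (θ w) = (0, w) := by
    intro w
    induction w using Finsupp.induction_linear with
    | zero => rw [map_zero, map_zero]; rfl
    | add a c ha hc => rw [map_add, map_add, ha, hc]; simp
    | single e r =>
      have : Φ (y e) = (0, Finsupp.single e 1) := by
        rcases e with ⟨⟨s, x⟩, h⟩ | ⟨i, h⟩
        · simp only [y, Sum.elim_inl, map_sub, Φ1, Φ4, a1, δB, dif_pos h]
          simp
        · simp only [y, Sum.elim_inr, map_sub, Φ2, Φ4, v0, dif_pos h]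
          simp
      simp only [θ, Finsupp.linearCombination_single, Φ1, this, a2, Finsupp.smul_single,
        smul_eq_mul, mul_one]
  refine ⟨E, θ, fun w w' h => ?_, le_antisymm ?_ fun a ha => ?_⟩
  · have := Φ5 w
    rw [h, Φ5] at this
    exact (congrArg Prod.snd this).symm
  · rw [Finsupp.range_linearCombination, Submodule.span_le]
    rintro _ ⟨e, rfl⟩
    rw [SetLike.mem_coe, ← Submodule.Quotient.mk_eq_zero, ← Submodule.mkQ_apply]
    rcases e with p | i <;> simp only [y, Sum.elim_inl, Sum.elim_inr, map_sub, map_smul, πσ, sub_self]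
  · have h4 : val (Φ a) = a := by
      rw [hΦ, map_sum]
      conv_rhs => rw [hb a]
      refine Finset.sum_congr rfl fun i _ => ?_
      rw [v1]
      congr 1
      change σ (v0 i).1 + θ (v0 i).2 = _
      by_cases h : (i, 1) ∈ S
      · have := σB ⟨_, h⟩
        rw [hB, o_one, one_smul, one_smul] at this
        simp only [v0, h, not_true, dif_neg, not_false_iff, map_zero, add_zero, this]
      · simp only [v0, dif_pos h, θ, Finsupp.linearCombination_single, one_smul, y, Sum.elim_inr]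
        abel
    have h5 : (Φ a).1 = 0 := by
      rw [hΦ, Prod.fst_sum]
      simp only [v2, v0, ← map_smul, ← map_sum, ← hb]
      exact (Submodule.Quotient.mk_eq_zero _).2 ha
    refine ⟨(Φ a).2, ?_⟩
    change σ (Φ a).1 + θ (Φ a).2 = a at h4
    rwa [h5, map_zero, zero_add] at h4

/-- Fox calculus with respect to the twisted augmentation -/
theorem fox [Fintype X] [DecidableEq X] : ∃ D : RR X →ₗ[ℚ] ℚ × (X → RR X),
    (∀ r, r = (D r).1 • 1 + ∑ i, (D r).2 i * (1 + o (FreeGroup.of i))) ∧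
    (∀ r i, D (r * (1 + o (FreeGroup.of i))) = (0, Pi.single i r)) ∧ D 1 = (1, 0) ∧
    ∀ c y, D (c * y) = (D y).1 • D c + (0, c • (D y).2) := by
  obtain ⟨α, a1, a2⟩ := tri (X := X) (M := ℚ) (W := X → RR X) (fun _ => LinearEquiv.neg ℚ)
    (fun x => LinearMap.toSpanSingleton ℚ _ (Pi.single x 1))
  let D : RR X →ₗ[ℚ] ℚ × (X → RR X) :=
    { toFun := fun r => α r (1, 0)
      map_add' := fun a c => by simp
      map_smul' := fun q a => by simp }
  have hD : ∀ r, D r = α r (1, 0) := fun _ => rfl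
  let val : (ℚ × (X → RR X)) →ₗ[ℚ] RR X :=
    { toFun := fun v => v.1 • 1 + ∑ i, v.2 i * (1 + o (FreeGroup.of i))
      map_add' := fun a c => by simp [add_smul, add_mul, Finset.sum_add_distrib]; abel
      map_smul' := fun q a => by simp [mul_smul, Finset.smul_sum] }
  have v1 : ∀ r v, val (α r v) = r • val v := inter α (Algebra.lsmul ℚ ℚ _) val fun x v => by
    obtain ⟨m, w⟩ := v
    rw [a1]
    simp only [val, LinearMap.coe_mk, AddHom.coe_mk, LinearEquiv.neg_apply, Pi.add_apply,
      Pi.smul_apply, LinearMap.toSpanSingleton_apply, add_mul, Finset.sum_add_distrib,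
      Algebra.lsmul_coe, smul_eq_mul, mul_add (o _), Finset.mul_sum, mul_assoc]
    rw [Finset.sum_eq_single (f := fun i => (m • (Pi.single x 1 : X → RR X) i) *
      (1 + o (FreeGroup.of i))) x (fun j _ hj => by simp [hj]) (by simp)]
    simp
    abel
  refine ⟨D, fun r => ?_, fun r i => ?_, by simp [hD], fun c y => ?_⟩
  · have := v1 r (1, 0)
    simp only [val, LinearMap.coe_mk, AddHom.coe_mk, ← hD] at this
    rw [this]; simp
  · rw [hD, map_mul, Module.End.mul_apply, map_add, map_one, LinearMap.add_apply, a1]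
    simp only [Module.End.one_apply, LinearEquiv.neg_apply, smul_zero, zero_add,
      LinearMap.toSpanSingleton_apply, one_smul, Prod.mk_add_mk, add_neg_cancel, a2]
    rw [← Pi.single_smul, smul_eq_mul, mul_one]
  · rw [hD, map_mul, Module.End.mul_apply, ← hD, hD c, ← a2, ← map_smul, ← map_add]
    congr 1
    ext <;> simp

end Pool.Agent.H.MP_fb8dd6_al
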