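import Pool.Agent.H.MP_fb8dd6_al.A
import Pool.Agent.H.MP_fb8dd6_al.B

set_option autoImplicit false

namespace Pool.Agent.H.MP_fb8dd6_al

open MonoidAlgebra

variable {X : Type}

noncomputable def ρ : FreeGroup X →* Module.End ℚ (FreeGroup X → ℚ) where
  toFun g := LinearMap.funLeft ℚ ℚ (g⁻¹ * ·)
  map_one' := by ext; simp
  map_mul' g h := by ext; simp [mul_assoc]

noncomputable def lam : RR X →ₐ[ℚ] Module.End ℚ (FreeGroup X → ℚ) := MonoidAlgebra.lift ℚ _ _ ρ

theorem lam_o (g : FreeGroup X) (f : FreeGroup X → ℚ) (x : FreeGroup X) :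
    lam (o g) f x = f (g⁻¹ * x) := by simp [lam, o, ρ]

theorem lam_apply (r : RR X) (f : FreeGroup X → ℚ) (x : FreeGroup X) :
    lam r f x = ∑ g ∈ r.coeff.support, r.coeff g * f (g⁻¹ * x) := by
  simp [lam, MonoidAlgebra.lift_apply, Finsupp.sum, ρ, Finset.sum_apply]

theorem lam_one (r : RR X) [DecidableEq (FreeGroup X)] : lam r (Pi.single 1 1) = r.coeff := by
  funext x
  rw [lam_apply, Finset.sum_eq_single x (fun g _ hg => by
    rw [Pi.single_eq_of_ne (fun h => hg (inv_mul_eq_one.1 h)), mul_zero]) (fun h => by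
    rw [Finsupp.notMem_support_iff.1 h, zero_mul])]
  simp

variable [LinearOrder (FreeGroup X)] [MulLeftMono (FreeGroup X)] [MulRightMono (FreeGroup X)]

theorem lam_wf (r : RR X) {f : FreeGroup X → ℚ} (hf : (Function.support f).IsWF) :
    (Function.support (lam r f)).IsWF := by
  induction r using MonoidAlgebra.induction_on with
  | of g =>
    refine ((Set.IsWF.isPWO hf).image_of_monotone (f := (g * ·))
      fun a b h => mul_le_mul_right h g).isWF.mono fun x hx => ⟨g⁻¹ * x, ?_, by simp⟩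
    rw [Function.mem_support, ← lam_o g f x]
    exact hx
  | add a b ha hb =>
    rw [map_add, LinearMap.add_apply]
    exact (ha.union hb).mono (Function.support_add _ _)
  | smul c a ha =>
    rw [map_smul, LinearMap.smul_apply]
    exact ha.mono (Function.support_const_smul_subset _ _)

theorem Pos.lam (g : FreeGroup X) {f : FreeGroup X → ℚ} (hf : Pos f) : Pos (lam (o g) f) := by
  obtain ⟨a, h1, h2⟩ := hf
  refine ⟨g * a, by simpa [lam_o] using h1, fun b hb => ?_⟩
  rw [lam_o]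
  exact h2 _ (inv_mul_lt_iff_lt_mul.2 hb)

theorem prod_le {l1 l2 : List (FreeGroup X)} (h : List.SublistForall₂ (· = ·) l1 l2)
    (h2 : ∀ z ∈ l2, 1 ≤ z) : l1.prod ≤ l2.prod := by
  induction h with
  | nil => exact List.one_le_prod_of_one_le h2
  | cons e _ ih =>
    rw [List.prod_cons, List.prod_cons, e]
    exact mul_le_mul_right (ih fun z hz => h2 z (List.mem_cons_of_mem _ hz)) _
  | cons_right _ ih =>
    rw [List.prod_cons]
    exact (ih fun z hz => h2 z (List.mem_cons_of_mem _ hz)).trans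
      (le_mul_of_one_le_left' (h2 _ List.mem_cons_self))

theorem divide {c : RR X} (hc : c ≠ 0) [DecidableEq (FreeGroup X)] : ∃ n : FreeGroup X → ℚ,
    (Function.support n).IsWF ∧ lam c n = Pi.single 1 1 := by
  classical
  have hne : c.coeff.support.Nonempty := Finsupp.support_nonempty_iff.2 fun h => hc (by
    ext x; simp [h])
  set g0 := c.coeff.support.min' hne with hg0
  have m0 : g0 ∈ c.coeff.support := Finset.min'_mem _ _
  have lt0 : ∀ g ∈ c.coeff.support.erase g0, g0 < g := fun g hg =>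
    lt_of_le_of_ne (Finset.min'_le _ _ (Finset.mem_of_mem_erase hg)) (Finset.ne_of_mem_erase hg).symm
  let T : Set (FreeGroup X) := (g0⁻¹ * ·) '' (c.coeff.support.erase g0)
  let W : Set (FreeGroup X) := (fun l : List (FreeGroup X) => l.prod * g0⁻¹) ''
    {l | ∀ z, z ∈ l → z ∈ T}
  have hW : W.IsWF := by
    refine Set.IsPWO.isWF (Set.PartiallyWellOrderedOn.image_of_monotone_on
      (Set.PartiallyWellOrderedOn.partiallyWellOrderedOn_sublistForall₂ (· = ·)
        ((Finset.finite_toSet _).image _).partiallyWellOrderedOn) fun a _ b hb h => ?_)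
    refine mul_le_mul_left (prod_le h fun z hz => ?_) _
    obtain ⟨g, hg, rfl⟩ := hb z hz
    exact (lt_inv_mul_iff_mul_lt.2 (by simpa using lt0 g hg)).le
  have wf := Set.wellFoundedOn_iff.1 hW
  let n : FreeGroup X → ℚ := wf.fix fun y rec => if y ∈ W then
    ((Pi.single 1 1 : FreeGroup X → ℚ) (g0 * y) - ∑ g ∈ c.coeff.support.erase g0, c.coeff g *
      (if h : g⁻¹ * (g0 * y) < y ∧ g⁻¹ * (g0 * y) ∈ W ∧ y ∈ W then rec _ h else 0)) / c.coeff g0
    else 0
  have n0 : ∀ y, y ∉ W → n y = 0 := fun y hy => by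
    simp only [n]; rw [WellFounded.fix_eq, if_neg hy]
  have n1 : ∀ y ∈ W, n y = ((Pi.single 1 1 : FreeGroup X → ℚ) (g0 * y) -
      ∑ g ∈ c.coeff.support.erase g0, c.coeff g * n (g⁻¹ * (g0 * y))) / c.coeff g0 := by
    intro y hy
    conv_lhs => simp only [n]; rw [WellFounded.fix_eq, if_pos hy]
    congr 2
    refine Finset.sum_congr rfl fun g hg => ?_
    split_ifs with h
    · rfl
    · rw [n0 _ fun h' => h ⟨inv_mul_lt_iff_lt_mul.2 (mul_lt_mul_left (lt0 g hg) y), h', hy⟩]
  refine ⟨n, hW.mono fun y hy => by_contra fun h => hy (n0 y h), funext fun x => ?_⟩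
  rw [lam_apply, ← Finset.add_sum_erase _ _ m0]
  by_cases hy : g0⁻¹ * x ∈ W
  · rw [n1 _ hy, mul_inv_cancel_left, mul_div_cancel₀ _ (Finsupp.mem_support_iff.1 m0)]
    ring
  · rw [n0 _ hy, mul_zero, zero_add, Pi.single_eq_of_ne, Finset.sum_eq_zero]
    · intro g hg
      rw [n0, mul_zero]
      rintro ⟨l, hl, e⟩
      refine hy ⟨g0⁻¹ * g :: l, fun z hz => ?_, ?_⟩
      · rcases List.mem_cons.1 hz with rfl | hz
        exacts [⟨g, hg, rfl⟩, hl z hz]
      · simp only at e ⊢
        rw [List.prod_cons, mul_assoc, e, mul_assoc, mul_inv_cancel_left]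
    · rintro rfl
      exact hy ⟨[], by simp, by simp⟩

variable {A : Type} [AddCommGroup A] [Module (RR X) A]

structure RCone (K : Submodule (RR X) A) (P : Set A) : Prop where
  add : ∀ a ∈ P, ∀ b ∈ P, a + b ∈ P
  addK : ∀ a ∈ P, ∀ b ∈ K, a + b ∈ P
  smul : ∀ a ∈ P, ∀ g : FreeGroup X, o g • a ∈ P
  disj : ∀ a ∈ P, a ∉ K
  total : ∀ a, a ∉ K → a ∈ P ∨ -a ∈ P

inductive Cn (X : Type) {A : Type} [AddCommGroup A] [Module (RR X) A] (Y : Set A) : A → Prop
  | base (g : FreeGroup X) (y : A) : y ∈ Y → Cn X Y (o g • y)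
  | add (a b : A) : Cn X Y a → Cn X Y b → Cn X Y (a + b)

def sg (χ : A → Bool) (x : A) : A := cond (χ x) x (-x)

def Loc (K : Submodule (RR X) A) : Prop := ∀ Z : Finset A, (∃ x ∈ Z, x ∉ K) →
    ∃ (U : Submodule (RR X) A) (φ : A → FreeGroup X → ℚ), (∀ x ∈ Z, x ∈ U) ∧
      (∀ a ∈ U, ∀ b ∈ U, φ (a + b) = φ a + φ b) ∧ (∀ r, ∀ a ∈ U, φ (r • a) = lam r (φ a)) ∧
      (∀ a ∈ U, (Function.support (φ a)).IsWF) ∧ (∀ a ∈ U, a ∈ K → φ a = 0) ∧ ∃ x ∈ Z, φ x ≠ 0

theorem bh (K : Submodule (RR X) A) (h : Loc K) : ∃ P, RCone K P := by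
  classical
  have loc : ∀ Z : Finset A, ∃ χ : A → Bool, ∀ a, Cn X (sg χ '' {x | x ∈ Z ∧ x ∉ K}) a → a ∉ K := by
    intro Z
    induction Z using Finset.strongInduction with
    | H Z ih =>
      by_cases hZ : ∃ x ∈ Z, x ∉ K
      · obtain ⟨U, φ, h1, h2, h3, h4, h5, x0, h6, h7⟩ := h Z hZ
        obtain ⟨χ0, hχ⟩ := ih (Z.filter (φ · = 0))
          (Finset.filter_ssubset.2 ⟨x0, h6, h7⟩)
        have hn : ∀ a ∈ U, φ (-a) = -φ a := fun a ha => by
          rw [← neg_one_smul (RR X) a, h3 _ a ha]; simp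
        refine ⟨fun x => if φ x = 0 then χ0 x else decide (Pos (φ x)), fun a ha haK => ?_⟩
        have key : a ∈ U ∧ (Pos (φ a) ∨
            (φ a = 0 ∧ Cn X (sg χ0 '' {x | x ∈ Z.filter (φ · = 0) ∧ x ∉ K}) a)) := by
          clear haK
          induction ha with
          | base g y hy =>
            obtain ⟨x, ⟨hx, hx'⟩, rfl⟩ := hy
            have xU := h1 x hx
            have sU : ∀ χ : A → Bool, sg χ x ∈ U := fun χ => by
              unfold sg; cases χ x
              exacts [neg_mem xU, xU]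
            refine ⟨U.smul_mem _ (sU _), ?_⟩
            rw [h3 _ _ (sU _)]
            by_cases e : φ x = 0
            · right
              have e1 : sg (fun x => if φ x = 0 then χ0 x else decide (Pos (φ x))) x = sg χ0 x := by
                simp [sg, e]
              rw [e1]
              refine ⟨?_, Cn.base g _ ⟨x, ⟨Finset.mem_filter.2 ⟨hx, e⟩, hx'⟩, rfl⟩⟩
              unfold sg
              cases χ0 x <;> simp [hn x xU, e]
            · left
              apply Pos.lam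
              by_cases p : Pos (φ x)
              · simpa [sg, e, p] using p
              · simpa [sg, e, p, hn x xU] using (Pos.total (h4 x xU) e).resolve_left p
          | add a b _ _ iha ihb =>
            refine ⟨add_mem iha.1 ihb.1, ?_⟩
            rw [h2 a iha.1 b ihb.1]
            rcases iha.2 with p | ⟨p, p'⟩ <;> rcases ihb.2 with q | ⟨q, q'⟩
            · exact Or.inl (p.add q)
            · exact Or.inl (by rwa [q, add_zero])
            · exact Or.inl (by rwa [p, zero_add])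
            · exact Or.inr ⟨by rw [p, q, add_zero], Cn.add _ _ p' q'⟩
        rcases key.2 with p | ⟨-, p⟩
        exacts [p.ne (h5 a key.1 haK), hχ a p haK]
      · refine ⟨fun _ => true, fun a ha => ?_⟩
        exfalso
        induction ha with
        | base g y hy => obtain ⟨x, hx, -⟩ := hy; exact hZ ⟨x, hx⟩
        | add a b _ _ iha _ => exact iha
  choose g hg using loc
  obtain ⟨χ, hχ⟩ := Finset.rado_selection (β := fun _ : A => Bool) g
  have mono : ∀ {Y Y' : Set A}, Y ⊆ Y' → ∀ a, Cn X Y a → Cn X Y' a := by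
    intro Y Y' hY a ha
    induction ha with
    | base g y hy => exact Cn.base g y (hY hy)
    | add a b _ _ iha ihb => exact Cn.add _ _ iha ihb
  have fin : ∀ a, Cn X (sg χ '' {x | x ∉ K}) a →
      ∃ Z : Finset A, Cn X (sg χ '' {x | x ∈ Z ∧ x ∉ K}) a := by
    intro a ha
    induction ha with
    | base g y hy =>
      obtain ⟨x, hx, rfl⟩ := hy
      exact ⟨{x}, Cn.base g _ ⟨x, ⟨Finset.mem_singleton_self x, hx⟩, rfl⟩⟩
    | add a b _ _ iha ihb =>
      obtain ⟨Z1, h1⟩ := iha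
      obtain ⟨Z2, h2⟩ := ihb
      refine ⟨Z1 ∪ Z2, Cn.add _ _ (mono (Set.image_mono fun x hx => ?_) _ h1)
        (mono (Set.image_mono fun x hx => ?_) _ h2)⟩
      exacts [⟨Finset.mem_union_left _ hx.1, hx.2⟩, ⟨Finset.mem_union_right _ hx.1, hx.2⟩]
  have sm : ∀ (Y : Set A) a, Cn X Y a → ∀ g : FreeGroup X, Cn X Y (o g • a) := by
    intro Y a ha g
    induction ha with
    | base g' y hy => rw [smul_smul, ← o_mul]; exact Cn.base _ y hy
    | add a b _ _ iha ihb => rw [smul_add]; exact Cn.add _ _ iha ihb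
  refine ⟨{a | ∃ k ∈ K, Cn X (sg χ '' {x | x ∉ K}) (a + k)}, ?_, ?_, ?_, ?_, ?_⟩
  · rintro a ⟨k, hk, h1⟩ b ⟨l, hl, h2⟩
    exact ⟨k + l, add_mem hk hl, by rw [add_add_add_comm]; exact Cn.add _ _ h1 h2⟩
  · rintro a ⟨k, hk, h1⟩ b hb
    exact ⟨k - b, sub_mem hk hb, by rwa [show a + b + (k - b) = a + k by abel]⟩
  · rintro a ⟨k, hk, h1⟩ g
    exact ⟨o g • k, K.smul_mem _ hk, by rw [← smul_add]; exact sm _ _ h1 g⟩
  · rintro a ⟨k, hk, h1⟩ ha
    obtain ⟨Z, hZ⟩ := fin _ h1
    obtain ⟨t, ht, ht'⟩ := hχ Z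
    refine hg t _ (mono ?_ _ hZ) (add_mem ha hk)
    rintro _ ⟨x, hx, rfl⟩
    exact ⟨x, ⟨ht hx.1, hx.2⟩, by simp only [sg, ht' x hx.1]⟩
  · intro a ha
    have := Cn.base (X := X) (Y := sg χ '' {x | x ∉ K}) 1 _ ⟨a, ha, rfl⟩
    rw [o_one, one_smul, sg] at this
    cases e : χ a <;> rw [e] at this
    · exact Or.inr ⟨0, zero_mem _, by rwa [add_zero]⟩
    · exact Or.inl ⟨0, zero_mem _, by rwa [add_zero]⟩

end Pool.Agent.H.MP_fb8dd6_al
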