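import Pool.Agent.H.MP_fb8dd6_al.C

set_option autoImplicit false

namespace Pool.Agent.H.MP_fb8dd6_al

open MonoidAlgebra

section
variable {X ι : Type} [Fintype ι]

theorem cyc {E : Type} (hE : ∀ e e' : E, e = e') (θ : (E →₀ RR X) →ₗ[RR X] (ι → RR X)) :
    ∃ z, LinearMap.range θ = Submodule.span (RR X) {z} := by
  rcases isEmpty_or_nonempty E with h | ⟨⟨e⟩⟩
  · refine ⟨0, ?_⟩
    rw [Submodule.span_zero_singleton, LinearMap.range_eq_bot]
    exact LinearMap.ext fun w => by rw [Subsingleton.elim w 0]; simp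
  · refine ⟨θ (Finsupp.single e 1), le_antisymm ?_ ?_⟩
    · rintro _ ⟨w, rfl⟩
      refine Submodule.mem_span_singleton.2 ⟨w e, ?_⟩
      rw [← map_smul]
      congr 1
      ext1 e'
      rw [hE e' e]; simp
    · rw [Submodule.span_le, Set.singleton_subset_iff]; exact ⟨_, rfl⟩

variable [LinearOrder (FreeGroup X)] [MulLeftMono (FreeGroup X)] [MulRightMono (FreeGroup X)]

theorem maxcyc (h : ι → RR X) : ∃ z, h ∈ Submodule.span (RR X) {z} ∧
    ∀ w, Submodule.span (RR X) {z} ≤ Submodule.span (RR X) {w} →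
      Submodule.span (RR X) {w} ≤ Submodule.span (RR X) {z} := by
  classical
  obtain ⟨m, hm1, hm2⟩ := zorn_le_nonempty₀ {K : Submodule (RR X) (ι → RR X) |
      ∃ z, K = Submodule.span (RR X) {z}} (fun c hc hch y hy => by
    obtain ⟨E, θ, h1, h2⟩ := lewin (sSup c)
    refine ⟨sSup c, ?_, fun z hz => le_sSup hz⟩
    rw [← h2]
    refine cyc (fun e e' => by_contra fun hne => ?_) θ
    have m1 : θ (Finsupp.single e 1) ∈ sSup c := h2 ▸ ⟨_, rfl⟩
    have m2 : θ (Finsupp.single e' 1) ∈ sSup c := h2 ▸ ⟨_, rfl⟩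
    obtain ⟨K1, k1, l1⟩ := (Submodule.mem_sSup_of_directed ⟨y, hy⟩ hch.directedOn).1 m1
    obtain ⟨K2, k2, l2⟩ := (Submodule.mem_sSup_of_directed ⟨y, hy⟩ hch.directedOn).1 m2
    obtain ⟨K, k, a1, a2⟩ := hch.directedOn K1 k1 K2 k2
    obtain ⟨w, rfl⟩ := hc k
    obtain ⟨w', rfl⟩ : w ∈ LinearMap.range θ :=
      h2 ▸ le_sSup k (Submodule.mem_span_singleton_self w)
    obtain ⟨c1, b1⟩ := Submodule.mem_span_singleton.1 (a1 l1)
    obtain ⟨c2, b2⟩ := Submodule.mem_span_singleton.1 (a2 l2)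
    rw [← map_smul] at b1 b2
    have d1 := DFunLike.congr_fun (h1 b1) e
    have d2 := DFunLike.congr_fun (h1 b1) e'
    have d3 := DFunLike.congr_fun (h1 b2) e'
    simp only [Finsupp.smul_apply, smul_eq_mul, Finsupp.single_eq_same,
      Finsupp.single_eq_of_ne (Ne.symm hne)] at d1 d2 d3
    rcases mul_eq_zero.1 d2 with d | d
    · rw [d, zero_mul] at d1; exact zero_ne_one d1
    · rw [d, mul_zero] at d3; exact zero_ne_one d3) (Submodule.span (RR X) {h}) ⟨h, rfl⟩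
  obtain ⟨z, rfl⟩ := hm2.prop
  exact ⟨z, hm1 (Submodule.mem_span_singleton_self h), fun w hw => hm2.le_of_ge ⟨w, rfl⟩ hw⟩

theorem wf_single [DecidableEq (FreeGroup X)] :
    (Function.support (Pi.single 1 1 : FreeGroup X → ℚ)).IsWF :=
  (Set.finite_singleton 1).isWF.mono Pi.support_single_subset

theorem locBot : Loc (⊥ : Submodule (RR X) (ι → RR X)) := by
  classical
  rintro Z ⟨x, hx, hx'⟩
  obtain ⟨i, hi⟩ := Function.ne_iff.1 (show x ≠ 0 from hx')
  refine ⟨⊤, fun a => lam (a i) (Pi.single 1 1), fun _ _ => trivial, fun a _ b _ => by simp,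
    fun r a _ => by simp, fun a _ => lam_wf _ wf_single, fun a _ ha => ?_, x, hx, fun h => hi ?_⟩
  · rw [(Submodule.mem_bot _).1 ha]; simp
  · simp only [lam_one] at h
    ext g; exact congrFun h g

theorem locMax {z : ι → RR X} (hz : ∀ w, Submodule.span (RR X) {z} ≤ Submodule.span (RR X) {w} →
      Submodule.span (RR X) {w} ≤ Submodule.span (RR X) {z}) :
    Loc (Submodule.span (RR X) {z}) := by
  classical
  rintro Z ⟨x, hx, hx'⟩
  obtain ⟨E, θ, h1, h2⟩ := lewin (Submodule.span (RR X) (insert z (Z : Set (ι → RR X))))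
  have zU : z ∈ LinearMap.range θ := h2 ▸ Submodule.subset_span (Set.mem_insert _ _)
  have ZU : ∀ x ∈ Z, x ∈ LinearMap.range θ := fun x hx =>
    h2 ▸ Submodule.subset_span (Set.mem_insert_of_mem _ hx)
  obtain ⟨e1, e2, hne⟩ : ∃ e1 e2 : E, e1 ≠ e2 := by
    by_contra h
    push Not at h
    obtain ⟨w, hw⟩ := cyc h θ
    rw [hw] at zU ZU
    exact hx' (hz w (by rwa [Submodule.span_le, Set.singleton_subset_iff]) (ZU x hx))
  obtain ⟨z', rfl⟩ := id zU
  have d0 : (Pi.single 1 1 : FreeGroup X → ℚ) ≠ 0 := fun h => by simpa using congrFun h 1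
  have w0 : (Function.support (0 : FreeGroup X → ℚ)).IsWF := by simp
  obtain ⟨n1, n2, p1, p2, p3, p4⟩ : ∃ n1 n2 : FreeGroup X → ℚ, (Function.support n1).IsWF ∧
      (Function.support n2).IsWF ∧ lam (z' e1) n1 + lam (z' e2) n2 = 0 ∧ ¬ (n1 = 0 ∧ n2 = 0) := by
    by_cases c1 : z' e1 = 0
    · exact ⟨_, 0, wf_single, w0, by simp [c1], fun h => d0 h.1⟩
    by_cases c2 : z' e2 = 0
    · exact ⟨0, _, w0, wf_single, by simp [c2], fun h => d0 h.2⟩
    obtain ⟨n1, a1, b1⟩ := divide c1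
    obtain ⟨n2, a2, b2⟩ := divide c2
    exact ⟨n1, -n2, a1, by rwa [Function.support_neg], by simp [b1, b2],
      fun h => d0 (by rw [← b1, h.1, map_zero])⟩
  let φ : (ι → RR X) → FreeGroup X → ℚ := fun a =>
    lam (Function.invFun θ a e1) n1 + lam (Function.invFun θ a e2) n2
  have hφ : ∀ w, φ (θ w) = lam (w e1) n1 + lam (w e2) n2 := fun w => by
    simp only [φ, Function.leftInverse_invFun h1 w]
  have q1 : ∀ a ∈ LinearMap.range θ, ∀ b ∈ LinearMap.range θ, φ (a + b) = φ a + φ b := by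
    rintro _ ⟨a, rfl⟩ _ ⟨b, rfl⟩
    rw [← map_add, hφ, hφ, hφ]
    simp only [Finsupp.add_apply, map_add, LinearMap.add_apply]
    abel
  have q2 : ∀ r, ∀ a ∈ LinearMap.range θ, φ (r • a) = lam r (φ a) := by
    rintro r _ ⟨a, rfl⟩
    rw [← map_smul, hφ, hφ]
    simp
  refine ⟨LinearMap.range θ, φ, ZU, q1, q2, ?_, fun a _ ha => ?_, ?_⟩
  · rintro _ ⟨a, rfl⟩
    rw [hφ]
    exact ((lam_wf _ p1).union (lam_wf _ p2)).mono (Function.support_add _ _)
  · obtain ⟨r, rfl⟩ := Submodule.mem_span_singleton.1 ha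
    rw [q2 r _ zU, hφ, p3, map_zero]
  · by_contra h
    push Not at h
    have q3 : ∀ a ∈ Submodule.span (RR X) (insert (θ z') (Z : Set (ι → RR X))), φ a = 0 := by
      intro a ha
      induction ha using Submodule.span_induction with
      | mem a ha =>
        rcases ha with rfl | ha
        exacts [by rw [hφ, p3], h a ha]
      | zero => rw [← map_zero θ, hφ]; simp
      | add a b ha hb iha ihb => rw [q1 a (h2 ▸ ha) b (h2 ▸ hb), iha, ihb, add_zero]
      | smul r a ha iha => rw [q2 r a (h2 ▸ ha), iha, map_zero]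
    rw [← h2] at q3
    have r1 := q3 _ ⟨Finsupp.single e1 1, rfl⟩
    have r2 := q3 _ ⟨Finsupp.single e2 1, rfl⟩
    rw [hφ] at r1 r2
    exact p4 ⟨by simpa [Finsupp.single_eq_of_ne hne.symm] using r1,
      by simpa [Finsupp.single_eq_of_ne hne] using r2⟩

end

noncomputable def xx (i : Fin 4) : RR (Fin 4) := 1 + o (FreeGroup.of i)
noncomputable def h1 : Fin 2 → RR (Fin 4) := ![xx 0, xx 2]
noncomputable def h2 : Fin 2 → RR (Fin 4) := ![xx 1, -xx 3]
noncomputable def HH : Submodule (RR (Fin 4)) (Fin 2 → RR (Fin 4)) := Submodule.span _ {h1, h2}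

theorem notmem (i : Fin 2) : (Pi.single i 1 : Fin 2 → RR (Fin 4)) ∉ HH := by
  obtain ⟨D, -, d2, d3, -⟩ := fox (X := Fin 4)
  intro h
  obtain ⟨a, b, h⟩ := Submodule.mem_span_pair.1 h
  have := congrArg (fun v => (D (v i)).1) h
  fin_cases i <;> simp [h1, h2, xx, d2, d3, -neg_add_rev] at this

theorem tf [NoZeroDivisors (RR (Fin 4))] {c : RR (Fin 4)} (hc : c ≠ 0) {y : Fin 2 → RR (Fin 4)}
    (h : c • y ∈ HH) : y ∈ HH := by
  obtain ⟨D, d1, d2, d3, d4⟩ := fox (X := Fin 4)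
  obtain ⟨a, b, h⟩ := Submodule.mem_span_pair.1 h
  have e1 := congrArg (fun v => D (v 0)) h
  have e2 := congrArg (fun v => D (v 1)) h
  simp only [h1, h2, xx, Pi.add_apply, Pi.smul_apply, smul_eq_mul, Matrix.cons_val_zero,
    Matrix.cons_val_one, mul_neg, map_add, map_neg, d2] at e1 e2
  rw [d4] at e1 e2
  obtain ⟨α, p, hp⟩ : ∃ α p, D (y 0) = (α, p) := ⟨_, _, rfl⟩
  obtain ⟨β, q, hq⟩ : ∃ α p, D (y 1) = (α, p) := ⟨_, _, rfl⟩
  obtain ⟨γ, k, hk⟩ : ∃ α p, D c = (α, p) := ⟨_, _, rfl⟩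
  have y0 := d1 (y 0)
  have y1 := d1 (y 1)
  have c0 := d1 c
  rw [hp, hk] at e1
  rw [hq, hk] at e2
  rw [hp] at y0
  rw [hq] at y1
  rw [hk] at c0
  have f0 := congrArg Prod.fst e1
  have g0 := congrArg Prod.fst e2
  have f := fun i => congrFun (congrArg Prod.snd e1) i
  have g := fun i => congrFun (congrArg Prod.snd e2) i
  have f1 := f 0
  have f2 := f 1
  have f3 := f 2
  have f4 := f 3
  have g1 := g 0
  have g2 := g 1
  have g3 := g 2
  have g4 := g 3
  simp at f0 g0 f1 f2 f3 f4 g1 g2 g3 g4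
  have key : ¬ (γ = 0 ∧ ∀ i, ∃ r, k i = c * r) := by
    rintro ⟨rfl, hr⟩
    choose r hr using hr
    simp only [hr, zero_smul, zero_add, mul_assoc, ← Finset.mul_sum] at c0
    have c1 : 1 = ∑ i, r i * (1 + o (FreeGroup.of i)) :=
      mul_left_cancel₀ hc (by rw [mul_one]; exact c0)
    have := congrArg (fun v => (D v).1) c1
    simp [d2, d3, Prod.fst_sum] at this
  have dv : ∀ {t : ℚ} {u v : RR (Fin 4)}, t ≠ 0 → t • u = c * v → ∃ r, u = c * r :=
    fun {t u v} ht e => ⟨t⁻¹ • v, by rw [mul_smul_comm, ← e, inv_smul_smul₀ ht]⟩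
  by_cases hα : α = 0 <;> by_cases hβ : β = 0
  · subst hα hβ
    simp only [zero_smul, zero_add] at *
    have z : ∀ {u : RR (Fin 4)}, 0 = c * u → u = 0 := fun e => (mul_eq_zero.1 e.symm).resolve_left hc
    refine Submodule.mem_span_pair.2 ⟨p 0, p 1, ?_⟩
    have s1 : q 2 = p 0 := mul_left_cancel₀ hc (g3.symm.trans f1)
    have s2 : q 3 = -p 1 := mul_left_cancel₀ hc (by rw [← g4, mul_neg, ← f2])
    ext1 i
    fin_cases i
    · simp [h1, h2, xx, y0, Fin.sum_univ_four, z f3, z f4]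
    · simp [h1, h2, xx, y1, Fin.sum_univ_four, z g1, z g2, s1, s2, -neg_add_rev]
  · subst hα
    simp only [zero_smul, zero_add] at f1 f2
    refine absurd ⟨g0.resolve_left hβ, fun i => ?_⟩ key
    fin_cases i
    · exact dv hβ (v := -q 0) (by rw [mul_neg]; exact eq_neg_of_add_eq_zero_left g1.symm)
    · exact dv hβ (v := -q 1) (by rw [mul_neg]; exact eq_neg_of_add_eq_zero_left g2.symm)
    · exact dv hβ (v := p 0 - q 2) (by rw [mul_sub, ← f1, g3]; simp)
    · exact dv hβ (v := -p 1 - q 3) (by rw [mul_sub, mul_neg, ← f2, g4]; simp)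
  · subst hβ
    simp only [zero_smul, zero_add] at g3 g4
    refine absurd ⟨f0.resolve_left hα, fun i => ?_⟩ key
    fin_cases i
    · exact dv hα (v := q 2 - p 0) (by rw [mul_sub, ← g3, f1]; simp)
    · exact dv hα (v := -q 3 - p 1) (by rw [mul_sub, mul_neg, ← g4, neg_neg, f2]; simp)
    · exact dv hα (v := -p 2) (by rw [mul_neg]; exact eq_neg_of_add_eq_zero_left f3.symm)
    · exact dv hα (v := -p 3) (by rw [mul_neg]; exact eq_neg_of_add_eq_zero_left f4.symm)
  · refine absurd ⟨f0.resolve_left hα, fun i => ?_⟩ key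
    fin_cases i
    · exact dv hβ (v := -q 0) (by rw [mul_neg]; exact eq_neg_of_add_eq_zero_left g1.symm)
    · exact dv hβ (v := -q 1) (by rw [mul_neg]; exact eq_neg_of_add_eq_zero_left g2.symm)
    · exact dv hα (v := -p 2) (by rw [mul_neg]; exact eq_neg_of_add_eq_zero_left f3.symm)
    · exact dv hα (v := -p 3) (by rw [mul_neg]; exact eq_neg_of_add_eq_zero_left f4.symm)

theorem cover [LinearOrder (FreeGroup (Fin 4))] [MulLeftMono (FreeGroup (Fin 4))]
    [MulRightMono (FreeGroup (Fin 4))] {h : Fin 2 → RR (Fin 4)} (hh : h ∈ HH) :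
    ∃ K ≤ HH, h ∈ K ∧ ∃ P, RCone K P := by
  by_cases h0 : h = 0
  · exact ⟨⊥, bot_le, h0, bh _ locBot⟩
  obtain ⟨z, a, b⟩ := maxcyc h
  refine ⟨_, ?_, a, bh _ (locMax b)⟩
  obtain ⟨c, rfl⟩ := Submodule.mem_span_singleton.1 a
  rw [Submodule.span_le, Set.singleton_subset_iff]
  exact tf (fun e => h0 (by rw [e, zero_smul])) hh

end Pool.Agent.H.MP_fb8dd6_al
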