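import Pool.Agent.H.MP_fb8dd6_al.D

set_option autoImplicit false

namespace Pool.Agent.H.MP_fb8dd6_al

@[ext] structure GG where
  a : Fin 2 → RR (Fin 4)
  g : FreeGroup (Fin 4)

noncomputable instance : Mul GG := ⟨fun p q => ⟨p.a + o p.g • q.a, p.g * q.g⟩⟩
noncomputable instance : One GG := ⟨⟨0, 1⟩⟩
noncomputable instance : Inv GG := ⟨fun p => ⟨-(o p.g⁻¹ • p.a), p.g⁻¹⟩⟩

@[simp] theorem mul_a (p q : GG) : (p * q).a = p.a + o p.g • q.a := rfl
@[simp] theorem mul_g (p q : GG) : (p * q).g = p.g * q.g := rfl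
@[simp] theorem one_a : (1 : GG).a = 0 := rfl
@[simp] theorem one_g : (1 : GG).g = 1 := rfl
@[simp] theorem inv_a (p : GG) : (p⁻¹).a = -(o p.g⁻¹ • p.a) := rfl
@[simp] theorem inv_g (p : GG) : (p⁻¹).g = p.g⁻¹ := rfl

noncomputable instance : Group GG := Group.ofLeftAxioms
  (fun p q r => GG.ext (by simp [o_mul, mul_smul, add_assoc]) (by simp [mul_assoc]))
  (fun p => GG.ext (by simp [o_one]) (by simp))
  (fun p => GG.ext (by simp) (by simp))

noncomputable def sub (K : Submodule (RR (Fin 4)) (Fin 2 → RR (Fin 4))) : Subgroup GG where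
  carrier := {p | p.g = 1 ∧ p.a ∈ K}
  mul_mem' := fun {p q} hp hq => ⟨by simp [hp.1, hq.1], add_mem hp.2 (K.smul_mem _ hq.2)⟩
  one_mem' := ⟨rfl, zero_mem _⟩
  inv_mem' := fun {p} hp => ⟨by simp [hp.1], neg_mem (K.smul_mem _ hp.2)⟩

theorem conj_a (p q : GG) (hp : p.g = 1) : (q * p * q⁻¹).a = o q.g • p.a := by
  simp [hp, smul_smul, o_inv']

theorem sub_normal (K : Submodule (RR (Fin 4)) (Fin 2 → RR (Fin 4))) : (sub K).Normal :=
  ⟨fun p hp q => ⟨by simp [hp.1], by rw [conj_a p q hp.1]; exact K.smul_mem _ hp.2⟩⟩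

theorem convex {PF : Set (FreeGroup (Fin 4))} (hF : GCone PF)
    {K : Submodule (RR (Fin 4)) (Fin 2 → RR (Fin 4))} {P0 PK : Set (Fin 2 → RR (Fin 4))}
    (h0 : RCone (X := Fin 4) ⊥ P0) (hK : RCone K PK) : ∃ (P : Set GG) (h : GCone P),
      ∀ k1 ∈ sub K, ∀ k2 ∈ sub K, ∀ p, h.ord.le k1 p → h.ord.le p k2 → p ∈ sub K := by
  refine ⟨{p | p.g ∈ PF ∨ (p.g = 1 ∧ (p.a ∈ PK ∨ (p.a ∈ K ∧ p.a ∈ P0)))}, ⟨?_, ?_, ?_, ?_⟩, ?_⟩
  · rintro p (hp | ⟨hp, hp'⟩) q (hq | ⟨hq, hq'⟩)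
    · exact Or.inl (hF.mul _ hp _ hq)
    · exact Or.inl (by simpa [hq] using hp)
    · exact Or.inl (by simpa [hp] using hq)
    · refine Or.inr ⟨by simp [hp, hq], ?_⟩
      rw [mul_a, hp, o_one, one_smul]
      rcases hp' with a | a <;> rcases hq' with b | b
      · exact Or.inl (hK.add _ a _ b)
      · exact Or.inl (hK.addK _ a _ b.1)
      · exact Or.inl (add_comm p.a q.a ▸ hK.addK _ b _ a.1)
      · exact Or.inr ⟨add_mem a.1 b.1, h0.add _ a.2 _ b.2⟩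
  · rintro (h | ⟨-, h | h⟩)
    exacts [hF.one h, hK.disj _ h (zero_mem _), h0.disj _ h.2 (zero_mem _)]
  · intro p hp
    by_cases h : p.g = 1
    · have e : (p⁻¹).a = -p.a := by simp [h, o_one]
      have e' : (p⁻¹).g = 1 := by simp [h]
      by_cases h' : p.a ∈ K
      · rcases h0.total p.a (fun h'' => hp (GG.ext h'' h)) with a | a
        · exact Or.inl (Or.inr ⟨h, Or.inr ⟨h', a⟩⟩)
        · exact Or.inr (Or.inr ⟨e', Or.inr (e ▸ ⟨neg_mem h', a⟩)⟩)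
      · rcases hK.total p.a h' with a | a
        · exact Or.inl (Or.inr ⟨h, Or.inl a⟩)
        · exact Or.inr (Or.inr ⟨e', Or.inl (e ▸ a)⟩)
    · exact (hF.total _ h).imp Or.inl Or.inl
  · rintro p (hp | ⟨hp, hp'⟩) q
    · exact Or.inl (hF.conj _ hp _)
    · refine Or.inr ⟨by simp [hp], ?_⟩
      rw [conj_a p q hp]
      exact hp'.imp (fun a => hK.smul _ a _) fun a => ⟨K.smul_mem _ a.1, h0.smul _ a.2 _⟩
  · rintro k1 a1 k2 a2 p (rfl | b1) b2
    · exact a1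
    rcases b2 with rfl | b2
    · exact a2
    have e : p.g = 1 := by
      rcases b1 with b1 | b1
      · rcases b2 with b2 | b2
        · exact absurd (by simpa [a1.1, a2.1] using hF.mul _ b1 _ b2) hF.one
        · simpa [a2.1] using b2.1
      · simpa [a1.1] using b1.1
    refine ⟨e, by_contra fun hp => ?_⟩
    simp only [Set.mem_ofPred_eq, mul_g, inv_g, a1.1, a2.1, e, inv_one, mul_one, hF.one, false_or,
      true_and, mul_a, inv_a, o_one, one_smul] at b1 b2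
    have c1 := b1.resolve_right fun h => hp ((K.add_mem_iff_right (neg_mem a1.2)).1 h.1)
    have c2 := b2.resolve_right fun h => hp (neg_mem_iff.1 ((K.add_mem_iff_left a2.2).1 h.1))
    refine hK.disj _ (hK.add _ c1 _ c2) ?_
    rw [add_assoc, add_neg_cancel_left]
    exact add_mem (neg_mem a1.2) a2.2

theorem gen_le {G : Type} [Group G] (ord : LinearOrder G)
    (h : ∀ a b x y : G, ord.le a b → ord.le (x * a * y) (x * b * y)) :
    (∀ u v s t : G, ord.le 1 u → ord.le 1 v →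
      ord.le u (u * ((s * u * s⁻¹) * (v * (t * v * t⁻¹))))) ∧ ∀ u : G, ord.le 1 u ∨ ord.le 1 u⁻¹ := by
  have : MulLeftMono G := ⟨fun x a b hab => by
    have := h a b x 1 hab; rwa [mul_one, mul_one] at this⟩
  have : MulRightMono G := ⟨fun x a b hab => by
    have := h a b 1 x hab; rwa [one_mul, one_mul] at this⟩
  have c : ∀ p q : G, 1 ≤ p → 1 ≤ q * p * q⁻¹ := fun p q hp => by
    have := h 1 p q q⁻¹ hp; rwa [mul_one, mul_inv_cancel] at this
  exact ⟨fun u v s t hu hv =>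
    le_mul_of_one_le_right' (one_le_mul (c _ _ hu) (one_le_mul hv (c _ _ hv))),
    fun u => (le_total 1 u).imp id one_le_inv'.2⟩

theorem not_convex (ord : LinearOrder GG)
    (h : ∀ a b x y : GG, ord.le a b → ord.le (x * a * y) (x * b * y))
    (hc : ∀ k1 ∈ sub HH, ∀ k2 ∈ sub HH, ∀ p, ord.le k1 p → ord.le p k2 → p ∈ sub HH) : False := by
  obtain ⟨g1, g2⟩ := gen_le ord h
  have key : ∀ (u v : Fin 2 → RR (Fin 4)) (s t : FreeGroup (Fin 4)), ord.le 1 ⟨u, 1⟩ →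
      ord.le 1 ⟨v, 1⟩ → u + o s • u + v + o t • v ∈ HH → u ∈ HH := by
    intro u v s t hu hv hm
    refine (hc 1 (one_mem _) _ ⟨?_, ?_⟩ ⟨u, 1⟩ hu (g1 _ _ ⟨0, s⟩ ⟨0, t⟩ hu hv)).2
    · simp only [mul_g, inv_g, mul_one, one_mul, mul_inv_cancel]
    · rw [mul_a, mul_a, mul_a ⟨v, 1⟩, conj_a _ _ rfl, conj_a _ _ rfl]
      simp only [mul_g, inv_g, mul_one, mul_inv_cancel, o_one, one_smul, ← add_assoc]
      exact hm
  have sgn : ∀ u : Fin 2 → RR (Fin 4), ord.le 1 ⟨u, 1⟩ ∨ ord.le 1 ⟨-u, 1⟩ := fun u => by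
    have e : (⟨-u, 1⟩ : GG) = (⟨u, 1⟩ : GG)⁻¹ := GG.ext (by simp [o_one]) (by simp)
    rw [e]; exact g2 _
  have m1 : h1 ∈ HH := Submodule.subset_span (by simp)
  have m2 : h2 ∈ HH := Submodule.subset_span (by simp)
  have n := notmem 0
  have mem : ∀ {a b : Fin 2 → RR (Fin 4)}, b ∈ HH → a 0 = b 0 → a 1 = b 1 → a ∈ HH :=
    fun {a b} hb e0 e1 => by
      rwa [show a = b from funext (Fin.forall_fin_two.2 ⟨e0, e1⟩)]
  rcases sgn (Pi.single 0 1) with a | a <;> rcases sgn (Pi.single 1 1) with b | b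
  · exact n (key _ _ (FreeGroup.of 0) (FreeGroup.of 2) a b
      (mem m1 (by simp [h1, xx]) (by simp [h1, xx])))
  · exact n (key _ _ (FreeGroup.of 1) (FreeGroup.of 3) a b
      (mem m2 (by simp [h2, xx]) (by simp [h2, xx, add_comm])))
  · exact n (neg_mem_iff.1 (key _ _ (FreeGroup.of 1) (FreeGroup.of 3) a b
      (mem (neg_mem m2) (by simp [h2, xx, add_comm]) (by simp [h2, xx]))))
  · exact n (neg_mem_iff.1 (key _ _ (FreeGroup.of 0) (FreeGroup.of 2) a b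
      (mem (neg_mem m1) (by simp [h1, xx, add_comm]) (by simp [h1, xx, add_comm]))))

theorem main : (∃ P : Set GG, GCone P) ∧ ∀ h ∈ HH, ∃ K ≤ HH, h ∈ K ∧ ∃ (P : Set GG) (h : GCone P),
      ∀ k1 ∈ sub K, ∀ k2 ∈ sub K, ∀ p, h.ord.le k1 p → h.ord.le p k2 → p ∈ sub K := by
  obtain ⟨PF, hF⟩ := free_cone (Fin 4)
  let _ := hF.ord
  have : MulLeftMono (FreeGroup (Fin 4)) := ⟨fun x a b hab => by
    have := hF.inv a b x 1 hab; rwa [mul_one, mul_one] at this⟩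
  have : MulRightMono (FreeGroup (Fin 4)) :=
    ⟨fun x a b hab => by have := hF.inv a b 1 x hab; rwa [one_mul, one_mul] at this⟩
  obtain ⟨P0, h0⟩ := bh _ (locBot (X := Fin 4) (ι := Fin 2))
  refine ⟨(convex hF h0 h0).imp fun P h => h.1, fun h hh => ?_⟩
  obtain ⟨K, a, b, PK, c⟩ := cover hh
  exact ⟨K, a, b, convex hF h0 c⟩

end Pool.Agent.H.MP_fb8dd6_al
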